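import Pool.Agent.Q95.VV6

/-!
# Vanishing-viscosity limits of adjoint measures need not be unique

One space dimension, `H(x, p) = p ^ 2 / 2`, `z = 0`, `T = 1` and a `C²` initial datum `g` such that
`g(y) + y ^ 2 / 2` vanishes exactly at `± 1 / 4`, to fourth order, with an oscillating
coefficient at `1 / 4`. The Hopf-Cole transform gives the adjoint measures in closed form.
-/

set_option autoImplicit false

namespace Pool.Agent.Results.MP_e9de1a_an.NoLimit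

open MeasureTheory Filter Topology Set ProbabilityTheory Pool.Agent.Q95.VV

/-- The averages of `χ(x) w(t)` have no limit. -/
theorem core : ∃ ψ : ℝ → ℝ → ℝ → ℝ, Continuous (fun q : ℝ × ℝ × ℝ => ψ q.1 q.2.1 q.2.2) ∧
    (∀ x p t, ψ (x + 1) p t = ψ x p t) ∧
    ∀ (u ux : ℝ → ℝ → ℝ → ℝ) (σ : ℝ → ℝ → Measure ℝ),
      (∀ ε ∈ Ioo (0 : ℝ) 1, IsViscous HQ gg ε (u ε) (ux ε) ∧ IsAdjoint HQ ε 1 0 (ux ε) (σ ε)) →
      ¬ ∃ L, Tendsto (fun ε => ∫ t in (0 : ℝ)..1, ∫ x, ψ x (ux ε x t) t ∂(σ ε t))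
        (𝓝[>] 0) (𝓝 L) := by
  obtain ⟨M, hM0, hM⟩ := bdd_per gg_P2.per1 gg_P2.c1
  obtain ⟨M1, hM10, hM1⟩ := bdd_per chi_P2.per1 chi_P2.c1
  obtain ⟨M2, hM20, hM2⟩ := bdd_per chi_P2.per2 chi_P2.c2
  set C := M * M1 + M2 with hC
  have hC0 : 0 ≤ C := by positivity
  -- the two limits
  set α := JJ (3 / 2) / (JJ (3 / 2) + JJ 1) with hα
  set β := JJ (1 / 2) / (JJ (1 / 2) + JJ 1) with hβ
  have hJ1 : 0 < JJ 1 := JJ_pos one_pos
  have hJ3 : 0 < JJ (3 / 2) := JJ_pos (by norm_num)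
  have hJ2 : 0 < JJ (1 / 2) := JJ_pos (by norm_num)
  have hlt : JJ (3 / 2) < JJ (1 / 2) := JJ_lt (by norm_num) (by norm_num)
  have hαβ : α < β := by
    rw [hα, hβ, div_lt_div_iff₀ (by positivity) (by positivity)]
    nlinarith
  set δ := (β - α) / (4 * (C + 1)) with hδ
  have hδ0 : 0 < δ := div_pos (sub_pos.2 hαβ) (by positivity)
  set w : ℝ → ℝ := fun t => max 0 (1 - t / δ) with hw
  have hwc : Continuous w := by fun_prop
  have hw0 : ∀ t, 0 ≤ w t := fun t => le_max_left _ _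
  set W := ∫ t in (0 : ℝ)..1, w t with hW
  have hW0 : 0 < W := intervalIntegral.integral_pos zero_lt_one hwc.continuousOn
    (fun t _ => hw0 t) ⟨0, ⟨le_rfl, zero_le_one⟩, by simp [hw]⟩
  refine ⟨fun x _ t => chi x * w t, ?_, fun x p t => by simp only [chi_per], ?_⟩
  · have := chi_contDiff.continuous
    fun_prop
  intro u ux σ hsol hlim
  obtain ⟨L, hL⟩ := hlim
  -- the deviation from the value at time zero
  have hdev : ∀ ε ∈ Ioo (0 : ℝ) 1,
      |(∫ t in (0 : ℝ)..1, ∫ x, chi x * w t ∂(σ ε t)) - (∫ x, chi x ∂(σ ε 0)) * W| ≤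
        C * δ * W := by
    intro ε hε
    obtain ⟨hu, hσ⟩ := hsol ε hε
    have hcont : ContinuousOn (fun t => ∫ x, chi x ∂(σ ε t)) (Icc 0 1) :=
      (hσ.2 _ _ _ _ (chi_P2.c21 0 1)).1
    have e1 : (∫ t in (0 : ℝ)..1, ∫ x, chi x * w t ∂(σ ε t)) - (∫ x, chi x ∂(σ ε 0)) * W =
        ∫ t in (0 : ℝ)..1, ((∫ x, chi x ∂(σ ε t)) - (∫ x, chi x ∂(σ ε 0))) * w t := by
      rw [hW, ← intervalIntegral.integral_const_mul, ← intervalIntegral.integral_sub]
      · refine intervalIntegral.integral_congr fun t _ => ?_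
        simp only [integral_mul_const]
        ring
      · refine ContinuousOn.intervalIntegrable ?_
        rw [uIcc_of_le zero_le_one]
        simp only [integral_mul_const]
        exact hcont.mul hwc.continuousOn
      · exact (continuous_const.mul hwc).intervalIntegrable _ _
    rw [e1, hW, ← intervalIntegral.integral_const_mul, ← Real.norm_eq_abs]
    refine intervalIntegral.norm_integral_le_of_norm_le zero_le_one
      (Eventually.of_forall fun t ht => ?_) ((continuous_const.mul hwc).intervalIntegrable _ _)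
    rw [Real.norm_eq_abs, abs_mul, abs_of_nonneg (hw0 t)]
    have h1 := adjoint_lip gg_P2 hε.1 hε.2 hu hσ chi_P2 hM hM1 hM2 ht.1.le ht.2
    rcases le_or_gt δ t with h2 | h2
    · have h3 : w t = 0 := by
        rw [hw]
        refine max_eq_left ?_
        have : 1 ≤ t / δ := (one_le_div hδ0).2 h2
        linarith
      rw [h3, mul_zero, mul_zero]
    · refine mul_le_mul_of_nonneg_right (h1.trans ?_) (hw0 t)
      exact mul_le_mul_of_nonneg_left h2.le hC0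
  -- along a sequence
  have hseq : ∀ θ : ℝ, 0 < θ → |L - JJ ((2 + Real.sin θ) / 2) / (JJ ((2 + Real.sin θ) / 2) + JJ 1) *
      W| ≤ C * δ * W := by
    intro θ hθ
    obtain ⟨hr, hr1, hr0, hω⟩ := rs_props hθ
    have hε : ∀ k, rs θ k ^ 4 ∈ Ioo (0 : ℝ) 1 := fun k =>
      ⟨pow_pos (hr k) 4, pow_lt_one₀ (hr k).le (hr1 k) (by norm_num)⟩
    have hε0 : Tendsto (fun k => rs θ k ^ 4) atTop (𝓝[>] 0) :=
      tendsto_nhdsWithin_iff.2 ⟨by simpa using hr0.pow 4, Eventually.of_forall fun k => (hε k).1⟩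
    have h1 := hL.comp hε0
    have h2 := ratio_limit hr hr1 hr0 hω (Real.neg_one_le_sin θ)
    have h3 : Tendsto (fun k => ∫ x, chi x ∂(σ (rs θ k ^ 4) 0)) atTop
        (𝓝 (JJ ((2 + Real.sin θ) / 2) / (JJ ((2 + Real.sin θ) / 2) + JJ 1))) := by
      refine h2.congr fun k => ?_
      obtain ⟨hu, hσ⟩ := hsol _ (hε k)
      exact (adjoint_formula gg_P2 (hε k).1 hu zero_lt_one hσ chi_P2).symm
    exact le_of_tendsto ((h1.sub (h3.mul_const W)).abs)
      (Eventually.of_forall fun k => hdev _ (hε k))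
  have hpi := Real.pi_pos
  have h1 := hseq (Real.pi / 2) (by positivity)
  have h2 := hseq (Real.pi / 2 + Real.pi) (by positivity)
  rw [Real.sin_pi_div_two, show (2 + 1 : ℝ) / 2 = 3 / 2 by norm_num, ← hα] at h1
  rw [Real.sin_add_pi, Real.sin_pi_div_two, show (2 + -1 : ℝ) / 2 = 1 / 2 by norm_num, ← hβ] at h2
  have h3 : (β - α) * W ≤ 2 * (C * δ * W) := by
    have h4 := (abs_le.1 h1).2
    have h5 := (abs_le.1 h2).1
    linarith
  have h4 : β - α ≤ 2 * (C * δ) := by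
    refine le_of_mul_le_mul_right ?_ hW0
    linarith
  have h5 : δ * (4 * (C + 1)) = β - α := div_mul_cancel₀ _ (by positivity)
  nlinarith

/-- **Answer to Q1: no.** In dimension one there are a Hamiltonian convex in `p` and satisfying
(A1), a `C²` datum `g`, a point `z` and a time `T` such that solutions exist for all `ε ∈ (0, 1)`
but the measures `μ^{ε,z}` do not converge weakly as `ε → 0`. -/
theorem result :
    ∃ (H : ℝ → ℝ → ℝ) (g : ℝ → ℝ) (z T : ℝ),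
      ContDiff ℝ 2 (fun q : ℝ × ℝ => H q.1 q.2) ∧ (∀ x p, H (x + 1) p = H x p) ∧
      (∀ x, ConvexOn ℝ univ (H x)) ∧
      (∀ M : ℝ, ∃ R : ℝ, ∀ x p : ℝ, R ≤ |p| →
        M ≤ H x p ^ 2 / 2 + deriv (fun y => H y p) x * p) ∧
      ContDiff ℝ 2 g ∧ (∀ x, g (x + 1) = g x) ∧ 0 < T ∧
      (∀ ε ∈ Ioo (0 : ℝ) 1, ∃ (u ux : ℝ → ℝ → ℝ) (σ : ℝ → Measure ℝ),
        IsViscous H g ε u ux ∧ IsAdjoint H ε T z ux σ) ∧
      ∃ ψ : ℝ → ℝ → ℝ → ℝ, Continuous (fun q : ℝ × ℝ × ℝ => ψ q.1 q.2.1 q.2.2) ∧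
        (∀ x p t, ψ (x + 1) p t = ψ x p t) ∧
        ∀ (u ux : ℝ → ℝ → ℝ → ℝ) (σ : ℝ → ℝ → Measure ℝ),
          (∀ ε ∈ Ioo (0 : ℝ) 1, IsViscous H g ε (u ε) (ux ε) ∧ IsAdjoint H ε T z (ux ε) (σ ε)) →
          ¬ ∃ L, Tendsto (fun ε => ∫ t in (0 : ℝ)..T, ∫ x, ψ x (ux ε x t) t ∂(σ ε t))
            (𝓝[>] 0) (𝓝 L) := by
  refine ⟨HQ, gg, 0, 1, ?_, fun _ _ => rfl, fun x => ?_, fun M => ?_, gg_contDiff, gg_per,
    zero_lt_one, fun ε hε => ?_, core⟩
  · unfold HQ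
    fun_prop
  · have h := (Even.convexOn_pow (n := 2) (by decide) : ConvexOn ℝ univ fun p : ℝ => p ^ 2)
    have h2 := h.smul (c := (1 / 2 : ℝ)) (by norm_num)
    refine h2.congr fun p _ => ?_
    simp only [smul_eq_mul, HQ]
    ring
  · refine ⟨max 1 (8 * M), fun x p hp => ?_⟩
    have h1 : 1 ≤ |p| := (le_max_left _ _).trans hp
    have h2 : 8 * M ≤ |p| := (le_max_right _ _).trans hp
    have h3 : deriv (fun y => HQ y p) x = 0 := by simp [HQ]
    rw [h3, zero_mul, add_zero, HQ]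
    have h4 : p ^ 2 = |p| ^ 2 := (sq_abs p).symm
    rw [h4]
    have h5 : |p| ≤ |p| ^ 4 := by
      calc |p| = |p| ^ 1 := (pow_one _).symm
        _ ≤ |p| ^ 4 := pow_le_pow_right₀ h1 (by norm_num)
    have h6 : (|p| ^ 2 / 2) ^ 2 / 2 = |p| ^ 4 / 8 := by ring
    rw [h6]
    linarith
  · exact ⟨_, _, _, viscous_exists gg_P2 hε.1,
      adjoint_exists gg_P2 hε.1 zero_lt_one 0 (viscous_exists gg_P2 hε.1)⟩

end Pool.Agent.Results.MP_e9de1a_an.NoLimit
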